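import Mathlib

/-!
# Families of simplices any two of which have a common interior point

Let `P` be a set of `n` points in general position in `R^d` and let `F` be a family of
`d`-simplices spanned by `P` any two of which have a common interior point. Then
`(d + 2) |F| ≤ 2 (n choose (d + 1))`, for `n ≥ d + 2`.

The reason: among any `d + 2` points of `P` at most two of the `d + 2` simplices belong to `F`,
since two simplices which omit points on the same side of the Radon partition of the `d + 2` points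
have disjoint interiors.
-/

set_option autoImplicit false

namespace Pool.Agent.Results.MP_df4edf_co.PairwiseIntersecting

open Finset

/-- The points `p i` are in general position in `R^d`: any `d + 1` of them are affinely
independent. -/
def GeneralPosition {d n : ℕ} (p : Fin n → EuclideanSpace ℝ (Fin d)) : Prop :=
  ∀ s : Finset (Fin n), s.card = d + 1 → AffineIndependent ℝ (fun i : s => p i)

/-- The interior of the simplex spanned by the points `p i`, `i ∈ s`. -/
def openSimplex {d n : ℕ} (p : Fin n → EuclideanSpace ℝ (Fin d)) (s : Finset (Fin n)) :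
    Set (EuclideanSpace ℝ (Fin d)) :=
  interior (convexHull ℝ (p '' (s : Set (Fin n))))

/-- the coefficients of an interior point of a simplex are positive -/
lemma coeff {d n : ℕ} (p : Fin n → EuclideanSpace ℝ (Fin d)) (s : Finset (Fin n))
    (hs : s.card = d + 1) (hi : AffineIndependent ℝ (fun i : s => p i))
    (x : EuclideanSpace ℝ (Fin d)) (hx : x ∈ openSimplex p s) :
    ∃ a : Fin n → ℝ, (∀ i ∈ s, 0 < a i) ∧ (∀ i, i ∉ s → a i = 0) ∧ ∑ i, a i = 1 ∧
      ∑ i, a i • p i = x := by
  classical
  have htop : affineSpan ℝ (Set.range (fun i : s => p i)) = ⊤ := by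
    rw [hi.affineSpan_eq_top_iff_card_eq_finrank_add_one]
    simp [hs]
  let b : AffineBasis s ℝ (EuclideanSpace ℝ (Fin d)) := ⟨fun i : s => p i, hi, htop⟩
  have hb : p '' (s : Set (Fin n)) = Set.range b := by
    ext y
    constructor
    · rintro ⟨i, hi, rfl⟩
      exact ⟨⟨i, hi⟩, rfl⟩
    · rintro ⟨⟨i, hi⟩, rfl⟩
      exact ⟨i, hi, rfl⟩
  unfold openSimplex at hx
  rw [hb, b.interior_convexHull] at hx
  refine ⟨fun i => if h : i ∈ s then b.coord ⟨i, h⟩ x else 0, ?_, ?_, ?_, ?_⟩
  · intro i hi
    simp only [hi, dif_pos]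
    exact hx ⟨i, hi⟩
  · intro i hi
    simp only [hi, dif_neg, not_false_iff]
  · rw [← Finset.sum_subset (Finset.subset_univ s), ← Finset.sum_coe_sort s]
    · have h1 := b.sum_coord_apply_eq_one x
      rw [← h1]
      refine Finset.sum_congr rfl fun i _ => ?_
      simp only [i.2, dif_pos]
    · intro i _ hi
      simp only [hi, dif_neg, not_false_iff]
  · rw [← Finset.sum_subset (Finset.subset_univ s), ← Finset.sum_coe_sort s]
    · have h1 := b.linear_combination_coord_eq_self x
      rw [← h1]
      refine Finset.sum_congr rfl fun i _ => ?_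
      simp only [i.2, dif_pos]
      rw [h1]
      rfl
    · intro i _ hi
      simp only [hi, dif_neg, not_false_iff, zero_smul]

/-- an affine dependence supported by `d + 1` of the points is zero -/
lemma dep_zero {d n : ℕ} (p : Fin n → EuclideanSpace ℝ (Fin d)) (s : Finset (Fin n))
    (hi : AffineIndependent ℝ (fun i : s => p i)) (c : Fin n → ℝ) (h0 : ∀ i, i ∉ s → c i = 0)
    (h1 : ∑ i, c i = 0) (h2 : ∑ i, c i • p i = 0) : ∀ i, c i = 0 := by
  classical
  rw [← Finset.sum_subset (Finset.subset_univ s) (fun i _ hi => h0 i hi),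
    ← Finset.sum_coe_sort s] at h1
  rw [← Finset.sum_subset (Finset.subset_univ s) (fun i _ hi => by rw [h0 i hi, zero_smul]),
    ← Finset.sum_coe_sort s] at h2
  intro i
  by_cases his : i ∈ s
  · have h3 := (affineIndependent_iff.1 hi) Finset.univ (fun i : s => c i) h1 h2 ⟨i, his⟩
      (Finset.mem_univ _)
    exact h3
  · exact h0 i his

/-- the dependence given by a common interior point of two of the simplices of `t` -/
lemma dep {d n : ℕ} (p : Fin n → EuclideanSpace ℝ (Fin d)) (hp : GeneralPosition p)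
    (t : Finset (Fin n)) (ht : t.card = d + 2) (i j : Fin n) (hi : i ∈ t) (hj : j ∈ t)
    (hij : i ≠ j)
    (h : (openSimplex p (t.erase i) ∩ openSimplex p (t.erase j)).Nonempty) :
    ∃ c : Fin n → ℝ, (∀ k, k ∉ t → c k = 0) ∧ ∑ k, c k = 0 ∧ ∑ k, c k • p k = 0 ∧
      c i < 0 ∧ 0 < c j := by
  obtain ⟨x, hx1, hx2⟩ := h
  have c1 : (t.erase i).card = d + 1 := by rw [card_erase_of_mem hi, ht]; rfl
  have c2 : (t.erase j).card = d + 1 := by rw [card_erase_of_mem hj, ht]; rfl
  obtain ⟨a, a1, a2, a3, a4⟩ := coeff p _ c1 (hp _ c1) x hx1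
  obtain ⟨b, b1, b2, b3, b4⟩ := coeff p _ c2 (hp _ c2) x hx2
  refine ⟨fun k => a k - b k, ?_, ?_, ?_, ?_, ?_⟩
  · intro k hk
    show a k - b k = 0
    rw [a2 k (fun h => hk (mem_of_mem_erase h)), b2 k (fun h => hk (mem_of_mem_erase h)), sub_zero]
  · rw [sum_sub_distrib, a3, b3, sub_self]
  · simp only [sub_smul]
    rw [sum_sub_distrib, a4, b4, sub_self]
  · show a i - b i < 0
    have h1 := a2 i (by simp)
    have h2 := b1 i (by rw [mem_erase]; exact ⟨hij, hi⟩)
    linarith
  · show 0 < a j - b j
    have h1 := b2 j (by simp)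
    have h2 := a1 j (by rw [mem_erase]; exact ⟨hij.symm, hj⟩)
    linarith

/-- two dependences of `d + 2` points are proportional -/
lemma prop {d n : ℕ} (p : Fin n → EuclideanSpace ℝ (Fin d)) (hp : GeneralPosition p)
    (t : Finset (Fin n)) (ht : t.card = d + 2) (j : Fin n) (hj : j ∈ t) (c e : Fin n → ℝ)
    (c0 : ∀ k, k ∉ t → c k = 0) (c1 : ∑ k, c k = 0) (c2 : ∑ k, c k • p k = 0)
    (e0 : ∀ k, k ∉ t → e k = 0) (e1 : ∑ k, e k = 0) (e2 : ∑ k, e k • p k = 0) :
    ∀ k, e j * c k = c j * e k := by
  have hc : (t.erase j).card = d + 1 := by rw [card_erase_of_mem hj, ht]; rfl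
  have h := dep_zero p (t.erase j) (hp _ hc) (fun k => e j * c k - c j * e k) ?_ ?_ ?_
  · intro k
    have := h k
    linarith
  · intro k hk
    show e j * c k - c j * e k = 0
    by_cases hkt : k ∈ t
    · have : k = j := by
        by_contra hne
        exact hk (mem_erase.2 ⟨hne, hkt⟩)
      rw [this]
      ring
    · rw [c0 k hkt, e0 k hkt]
      ring
  · rw [sum_sub_distrib, ← mul_sum, ← mul_sum, c1, e1]
    ring
  · simp only [sub_smul, mul_smul]
    rw [sum_sub_distrib, ← smul_sum, ← smul_sum, c2, e2]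
    simp

/-- three of the simplices of `d + 2` points cannot meet pairwise -/
lemma three {d n : ℕ} (p : Fin n → EuclideanSpace ℝ (Fin d)) (hp : GeneralPosition p)
    (t : Finset (Fin n)) (ht : t.card = d + 2) (i j k : Fin n) (hi : i ∈ t) (hj : j ∈ t)
    (hk : k ∈ t) (hij : i ≠ j) (hjk : j ≠ k) (hik : i ≠ k)
    (h1 : (openSimplex p (t.erase i) ∩ openSimplex p (t.erase j)).Nonempty)
    (h2 : (openSimplex p (t.erase j) ∩ openSimplex p (t.erase k)).Nonempty)
    (h3 : (openSimplex p (t.erase i) ∩ openSimplex p (t.erase k)).Nonempty) : False := by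
  obtain ⟨a, a0, a1, a2, a3, a4⟩ := dep p hp t ht i j hi hj hij h1
  obtain ⟨b, b0, b1, b2, b3, b4⟩ := dep p hp t ht j k hj hk hjk h2
  obtain ⟨c, c0, c1, c2, c3, c4⟩ := dep p hp t ht i k hi hk hik h3
  have q1 := prop p hp t ht j hj a b a0 a1 a2 b0 b1 b2 k
  have q2 := prop p hp t ht i hi a c a0 a1 a2 c0 c1 c2 k
  have r1 : 0 < a j * b k := mul_pos a4 b4
  have r2 : a k < 0 := by
    by_contra hcon
    push Not at hcon
    nlinarith
  have r3 : 0 < c i * a k := mul_pos_of_neg_of_neg c3 r2
  have r4 : a i * c k < 0 := mul_neg_of_neg_of_pos a3 c4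
  linarith

/-- at most two of the simplices of `d + 2` points belong to the family -/
lemma local_bound {d n : ℕ} (p : Fin n → EuclideanSpace ℝ (Fin d)) (hp : GeneralPosition p)
    (F : Finset (Finset (Fin n))) (hF : ∀ s ∈ F, s.card = d + 1)
    (hI : ∀ s ∈ F, ∀ s' ∈ F, (openSimplex p s ∩ openSimplex p s').Nonempty)
    (t : Finset (Fin n)) (ht : t.card = d + 2) : (F.filter (fun s => s ⊆ t)).card ≤ 2 := by
  classical
  by_contra hcon
  push Not at hcon
  obtain ⟨s1, m1, s2, m2, s3, m3, n12, n13, n23⟩ := Finset.two_lt_card.1 hcon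
  rw [mem_filter] at m1 m2 m3
  have key : ∀ s, s ∈ F → s ⊆ t → ∃ i ∈ t, s = t.erase i := by
    intro s hs hst
    have h1 : (t \ s).card = 1 := by rw [card_sdiff_of_subset hst, ht, hF s hs]; omega
    obtain ⟨i, hi⟩ := card_eq_one.1 h1
    have hit : i ∈ t \ s := by rw [hi]; exact mem_singleton_self i
    rw [mem_sdiff] at hit
    refine ⟨i, hit.1, ?_⟩
    apply eq_of_subset_of_card_le
    · intro k hk
      rw [mem_erase]
      refine ⟨fun h => hit.2 (h ▸ hk), hst hk⟩
    · rw [card_erase_of_mem hit.1, ht, hF s hs]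
      omega
  obtain ⟨i, hi, e1⟩ := key s1 m1.1 m1.2
  obtain ⟨j, hj, e2⟩ := key s2 m2.1 m2.2
  obtain ⟨k, hk, e3⟩ := key s3 m3.1 m3.2
  refine three p hp t ht i j k hi hj hk ?_ ?_ ?_ ?_ ?_ ?_
  · rintro rfl; exact n12 (e1.trans e2.symm)
  · rintro rfl; exact n23 (e2.trans e3.symm)
  · rintro rfl; exact n13 (e1.trans e3.symm)
  · rw [← e1, ← e2]; exact hI _ m1.1 _ m2.1
  · rw [← e2, ← e3]; exact hI _ m2.1 _ m3.1
  · rw [← e1, ← e3]; exact hI _ m1.1 _ m3.1

/-- **Theorem.** Let `d ≥ 1`, let `p` be `n ≥ d + 2` points in general position in `R^d` and let `F`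
be a family of `d`-simplices spanned by them, any two of which have a common interior point. Then
`(d + 2) |F| ≤ 2 (n choose (d + 1))`. -/
theorem result (d n : ℕ) (hn : d + 2 ≤ n) (p : Fin n → EuclideanSpace ℝ (Fin d))
    (hp : GeneralPosition p) (F : Finset (Finset (Fin n))) (hF : ∀ s ∈ F, s.card = d + 1)
    (hI : ∀ s ∈ F, ∀ s' ∈ F, (openSimplex p s ∩ openSimplex p s').Nonempty) :
    (d + 2) * F.card ≤ 2 * n.choose (d + 1) := by
  classical
  -- double counting of the pairs `s ⊆ t`
  have h1 : ∑ t ∈ (univ : Finset (Fin n)).powersetCard (d + 2), (F.filter (fun s => s ⊆ t)).card =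
      ∑ s ∈ F, (((univ : Finset (Fin n)).powersetCard (d + 2)).filter (fun t => s ⊆ t)).card := by
    simp only [card_filter]
    rw [sum_comm]
  have h2 : ∀ s ∈ F, (((univ : Finset (Fin n)).powersetCard (d + 2)).filter
      (fun t => s ⊆ t)).card = n - (d + 1) := by
    intro s hs
    have h3 : ((univ : Finset (Fin n)).powersetCard (d + 2)).filter (fun t => s ⊆ t) =
        (univ \ s).image (fun i => insert i s) := by
      ext t
      simp only [mem_filter, mem_powersetCard, mem_image, mem_sdiff, mem_univ, true_and,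
        subset_univ]
      constructor
      · rintro ⟨h4, h5⟩
        have h6 : (t \ s).card = 1 := by rw [card_sdiff_of_subset h5, h4, hF s hs]; omega
        obtain ⟨i, hi⟩ := card_eq_one.1 h6
        have hit : i ∈ t \ s := by rw [hi]; exact mem_singleton_self i
        rw [mem_sdiff] at hit
        refine ⟨i, hit.2, ?_⟩
        apply eq_of_subset_of_card_le
        · intro k hk
          rcases mem_insert.1 hk with rfl | hk
          · exact hit.1
          · exact h5 hk
        · rw [card_insert_of_notMem hit.2, h4, hF s hs]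
      · rintro ⟨i, hi, rfl⟩
        exact ⟨by rw [card_insert_of_notMem hi, hF s hs], subset_insert i s⟩
    rw [h3, card_image_of_injOn, card_sdiff_of_subset (subset_univ s), card_univ, Fintype.card_fin,
      hF s hs]
    intro i hi j hj hij
    have hi' : i ∉ s := by simpa using hi
    have h4 : i ∈ insert j s := by
      have h5 : insert i s = insert j s := hij
      rw [← h5]
      exact mem_insert_self i s
    rcases mem_insert.1 h4 with h | h
    · exact h
    · exact absurd h hi'
  rw [sum_congr rfl h2, sum_const, smul_eq_mul] at h1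
  have h3 : ∑ t ∈ (univ : Finset (Fin n)).powersetCard (d + 2), (F.filter (fun s => s ⊆ t)).card ≤
      ∑ t ∈ (univ : Finset (Fin n)).powersetCard (d + 2), 2 :=
    sum_le_sum fun t ht => local_bound p hp F hF hI t (mem_powersetCard.1 ht).2
  rw [h1, sum_const, card_powersetCard, card_univ, Fintype.card_fin, smul_eq_mul] at h3
  have h4 : n.choose (d + 2) * (d + 2) = n.choose (d + 1) * (n - (d + 1)) :=
    Nat.choose_succ_right_eq n (d + 1)
  have h5 : 0 < n - (d + 1) := by omega
  have h6 : (d + 2) * F.card * (n - (d + 1)) ≤ 2 * n.choose (d + 1) * (n - (d + 1)) := by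
    calc (d + 2) * F.card * (n - (d + 1)) = (d + 2) * (F.card * (n - (d + 1))) := by ring
      _ ≤ (d + 2) * (n.choose (d + 2) * 2) := Nat.mul_le_mul_left _ h3
      _ = 2 * (n.choose (d + 2) * (d + 2)) := by ring
      _ = 2 * n.choose (d + 1) * (n - (d + 1)) := by rw [h4]; ring
  exact Nat.le_of_mul_le_mul_right h6 h5

end Pool.Agent.Results.MP_df4edf_co.PairwiseIntersecting
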